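import Pool.Agent.Helper1.LUC.RKCommon

set_option autoImplicit false

namespace Pool.Agent.Helper59.LUC

namespace PkRK3

theorem thm (h1 : G_RK1) (hc : G_WC) (hg : G_WG) : G_RK3 := by
  intro T M η h N hN r p hr hp hpr hpM hpN
  obtain ⟨o, ho, hpo, hrank⟩ := h1 T M p hp hpM
  have hor : o ∣ r := (hrank r).mp (dvd_trans (Int.natCast_dvd_natCast.mpr hpN) (PkRKc.N_dvd_W hN hr))
  obtain ⟨s, rfl⟩ := hor
  have hs : 0 < s := by
    rcases Nat.eq_zero_or_pos s with h0 | h0
    · subst h0; simp at hr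
    · exact h0
  have hq : ∀ {q : ℕ}, q.Prime → q ∣ s → q = p := fun {q} hq hqs =>
    PkRKc.q_eq hc hg h hN hp hpM ho hs hpN hrank hq hqs
  have hs2 : s = p ^ s.primeFactorsList.length := Nat.eq_prime_pow_of_unique_prime_dvd hs.ne' hq
  refine ⟨o, s.primeFactorsList.length, ho, ?_, ?_, hpo, hrank⟩
  · rcases Nat.eq_zero_or_pos s.primeFactorsList.length with h0 | h0
    · rw [h0] at hs2
      rw [hs2] at hpr
      simp at hpr
      exact absurd hpr hpo
    · exact h0
  · rw [← hs2]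

end PkRK3

end Pool.Agent.Helper59.LUC
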