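import Pool.Agent.Helper59.LUC.Goals

set_option autoImplicit false

namespace Pool.Agent.Helper59.LUC

namespace PkRKc

lemma N_dvd_W {T M : ℤ} {η : ℂ} {N : ℕ → ℕ} (hN : NN T M η N) {r : ℕ} (hr : 1 ≤ r) :
    (N r : ℤ) ∣ W T M r := by
  rw [← hN.prod r hr]
  exact Finset.dvd_prod_of_mem (fun d => (N d : ℤ)) (Nat.mem_divisors_self r (by omega))

/-- If `r = q m`, `q ≥ 2`, then `N r` divides the quotient `G` of `W_r` by `W_m`. -/
lemma N_dvd_G {T M : ℤ} {η : ℂ} (h : Ctx T M η) {N : ℕ → ℕ} (hN : NN T M η N) {m q : ℕ} (hm : 1 ≤ m)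
    (hq : 2 ≤ q) {G : ℤ} (hG : W T M (m * q) = W T M m * G) : (N (m * q) : ℤ) ∣ G := by
  have hr : 1 ≤ m * q := Nat.mul_pos hm (by omega)
  have hsub : m.divisors ⊆ (m * q).divisors := Nat.divisors_subset_of_dvd (by omega) (Dvd.intro _ rfl)
  have h1 := hN.prod (m * q) hr
  rw [← Finset.prod_sdiff hsub, hN.prod m hm] at h1
  have hW : W T M m ≠ 0 := (h.W_pos (by omega)).ne'
  have h2 : (∏ d ∈ (m * q).divisors \ m.divisors, (N d : ℤ)) = G := by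
    apply mul_left_cancel₀ hW
    rw [← hG, ← h1]
    ring
  rw [← h2]
  refine Finset.dvd_prod_of_mem (fun d => (N d : ℤ)) ?_
  rw [Finset.mem_sdiff]
  refine ⟨Nat.mem_divisors_self _ (by omega), ?_⟩
  intro hc
  have h3 := Nat.divisor_le hc
  have h4 : m * 2 ≤ m * q := Nat.mul_le_mul_left m hq
  omega

/-- main step: a prime `q` dividing `r / o` equals `p`. -/
lemma q_eq (hc : G_WC) (hg : G_WG) {T M : ℤ} {η : ℂ} (h : Ctx T M η) {N : ℕ → ℕ} (hN : NN T M η N)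
    {p o s : ℕ} (hp : p.Prime) (hpM : ¬ (p : ℤ) ∣ M) (ho : 0 < o) (hs : 0 < s) (hpN : p ∣ N (o * s))
    (hrank : ∀ n : ℕ, ((p : ℤ) ∣ W T M n ↔ o ∣ n)) {q : ℕ} (hq : q.Prime) (hqs : q ∣ s) : q = p := by
  obtain ⟨s', rfl⟩ := hqs
  have hs' : 0 < s' := Nat.pos_of_mul_pos_left hs |> fun _ => by
    rcases Nat.eq_zero_or_pos s' with h0 | h0
    · subst h0; simp at hs
    · exact h0
  set m := o * s' with hmdef
  have hm : 0 < m := Nat.mul_pos ho hs'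
  have hr : o * (q * s') = m * q := by rw [hmdef]; ring
  rw [hr] at hpN
  have hWm : (p : ℤ) ∣ W T M m := (hrank m).mpr (Dvd.intro _ rfl)
  obtain ⟨G, hG1, hG2⟩ := hg (V T (M ^ 2) m) (M ^ m) q
  have hWmeq : 2 * M ^ m - V T (M ^ 2) m = W T M m := rfl
  rw [hWmeq] at hG1 hG2
  rw [← hc T M m q] at hG1
  have h3 : (N (m * q) : ℤ) ∣ G := N_dvd_G h hN hm hq.two_le hG1
  have h4 : (p : ℤ) ∣ G := dvd_trans (Int.natCast_dvd_natCast.mpr hpN) h3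
  have h5 : (p : ℤ) ∣ G - (q : ℤ) ^ 2 * (M ^ m) ^ (q - 1) := dvd_trans hWm hG2
  have h6 : (p : ℤ) ∣ (q : ℤ) ^ 2 * (M ^ m) ^ (q - 1) := by
    have := dvd_sub h4 h5
    simpa using this
  have hpp : Prime (p : ℤ) := Nat.prime_iff_prime_int.mp hp
  rcases hpp.dvd_or_dvd h6 with h7 | h7
  · have h8 : (p : ℤ) ∣ (q : ℤ) := hpp.dvd_of_dvd_pow h7
    have h9 : p ∣ q := Int.natCast_dvd_natCast.mp h8
    exact ((Nat.prime_dvd_prime_iff_eq hp hq).mp h9).symm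
  · exact absurd (hpp.dvd_of_dvd_pow (hpp.dvd_of_dvd_pow h7)) hpM

end PkRKc

end Pool.Agent.Helper59.LUC
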