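import Pool.Agent.Helper59.LUC.Goals

set_option autoImplicit false

namespace Pool.Agent.Helper59.LUC

namespace PkUW

lemma binet (P Q : ℤ) (α β : ℂ) (h1 : α + β = P) (h2 : α * β = Q) (n : ℕ) :
    (α - β) * (U P Q n : ℂ) = α ^ n - β ^ n := by
  induction n using Nat.twoStepInduction with
  | zero => simp [U]
  | one => simp [U]
  | more n ih1 ih2 =>
    have e : U P Q (n + 2) = P * U P Q (n + 1) - Q * U P Q n := rfl
    rw [e]
    push_cast
    rw [← h1, ← h2]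
    have h3 : α ^ (n + 1) = α ^ n * α := pow_succ _ _
    have h4 : β ^ (n + 1) = β ^ n * β := pow_succ _ _
    have h5 : α ^ (n + 2) = α ^ n * α ^ 2 := pow_add _ _ _
    have h6 : β ^ (n + 2) = β ^ n * β ^ 2 := pow_add _ _ _
    rw [h5, h6]
    rw [h3, h4] at ih2
    linear_combination (α + β) * ih2 - (α * β) * ih1

lemma W_two {T M : ℤ} {η : ℂ} (h : Ctx T M η) (j : ℕ) :
    W T M (2 * j) = W T M j * (4 * M ^ j - W T M j) := by
  have hc : ((W T M (2 * j) : ℤ) : ℂ) = ((W T M j * (4 * M ^ j - W T M j) : ℤ) : ℂ) := by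
    unfold W
    push_cast
    rw [h.V_eq, h.V_eq]
    have h2 : η ^ j * (η⁻¹) ^ j = 1 := by
      rw [← mul_pow, mul_inv_cancel₀ h.ne_zero, one_pow]
    have h3 : (M : ℂ) ^ (2 * j) = (M : ℂ) ^ j * (M : ℂ) ^ j := by rw [two_mul, pow_add]
    have h4 : η ^ (2 * j) = η ^ j * η ^ j := by rw [two_mul, pow_add]
    have h5 : (η⁻¹) ^ (2 * j) = (η⁻¹) ^ j * (η⁻¹) ^ j := by rw [two_mul, pow_add]
    rw [h3, h4, h5]
    linear_combination (2 * ((M : ℂ) ^ j) ^ 2) * h2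
  exact_mod_cast hc

lemma W_c {T M : ℤ} {η : ℂ} (h : Ctx T M η) (j : ℕ) :
    (W T M j : ℂ) = 2 * (M : ℂ) ^ j - (M : ℂ) ^ j * (η ^ j + (η⁻¹) ^ j) := by
  unfold W
  push_cast
  rw [h.V_eq]

lemma key_plus {T M : ℤ} {η : ℂ} (h : Ctx T M η) (P Q : ℤ) (α β : ℂ) (j n : ℕ)
    (h1 : α + β = P) (h2 : α * β = Q) (he : α ^ n = η ^ j * β ^ n) :
    M ^ j * (P ^ 2 - 4 * Q) * (U P Q n) ^ 2 = -(Q ^ n * W T M j) := by
  have hc : ((M ^ j * (P ^ 2 - 4 * Q) * (U P Q n) ^ 2 : ℤ) : ℂ) = ((-(Q ^ n * W T M j) : ℤ) : ℂ) := by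
    push_cast
    rw [W_c h, ← h1, ← h2]
    have hb := binet P Q α β h1 h2 n
    have h4 : η ^ j * (η⁻¹) ^ j = 1 := by
      rw [← mul_pow, mul_inv_cancel₀ h.ne_zero, one_pow]
    have h5 : (α * β) ^ n = η ^ j * (β ^ n) ^ 2 := by
      rw [mul_pow, he]; ring
    have h6 : ((α + β) ^ 2 - 4 * (α * β)) * (U P Q n : ℂ) ^ 2 = ((α - β) * (U P Q n : ℂ)) ^ 2 := by ring
    have h7 : (M : ℂ) ^ j * ((α + β) ^ 2 - 4 * (α * β)) * (U P Q n : ℂ) ^ 2 =
        (M : ℂ) ^ j * (((α + β) ^ 2 - 4 * (α * β)) * (U P Q n : ℂ) ^ 2) := by ring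
    rw [h7, h6, hb, h5, he]
    linear_combination (-(M : ℂ) ^ j * (β ^ n) ^ 2) * h4
  exact_mod_cast hc

lemma key_minus {T M : ℤ} {η : ℂ} (h : Ctx T M η) (P Q : ℤ) (α β : ℂ) (j n : ℕ)
    (h1 : α + β = P) (h2 : α * β = Q) (he : α ^ n = -(η ^ j * β ^ n)) :
    M ^ j * (P ^ 2 - 4 * Q) * (U P Q n) ^ 2 = -(Q ^ n * (4 * M ^ j - W T M j)) := by
  have hc : ((M ^ j * (P ^ 2 - 4 * Q) * (U P Q n) ^ 2 : ℤ) : ℂ) =
      ((-(Q ^ n * (4 * M ^ j - W T M j)) : ℤ) : ℂ) := by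
    push_cast
    rw [W_c h, ← h1, ← h2]
    have hb := binet P Q α β h1 h2 n
    have h4 : η ^ j * (η⁻¹) ^ j = 1 := by
      rw [← mul_pow, mul_inv_cancel₀ h.ne_zero, one_pow]
    have h5 : (α * β) ^ n = -(η ^ j * (β ^ n) ^ 2) := by
      rw [mul_pow, he]; ring
    have h6 : ((α + β) ^ 2 - 4 * (α * β)) * (U P Q n : ℂ) ^ 2 = ((α - β) * (U P Q n : ℂ)) ^ 2 := by ring
    have h7 : (M : ℂ) ^ j * ((α + β) ^ 2 - 4 * (α * β)) * (U P Q n : ℂ) ^ 2 =
        (M : ℂ) ^ j * (((α + β) ^ 2 - 4 * (α * β)) * (U P Q n : ℂ) ^ 2) := by ring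
    rw [h7, h6, hb, h5, he]
    linear_combination (-(M : ℂ) ^ j * (β ^ n) ^ 2) * h4
  exact_mod_cast hc

lemma dvd_iff (p : ℤ) (hp : Prime p) (M D Q u w : ℤ) (j n : ℕ) (hM : ¬ p ∣ M) (hD : ¬ p ∣ D) (hQ : ¬ p ∣ Q)
    (h : M ^ j * D * u ^ 2 = -(Q ^ n * w)) : p ∣ u ↔ p ∣ w := by
  constructor
  · intro hu
    have h1 : p ∣ Q ^ n * w := by
      have : p ∣ -(Q ^ n * w) := by
        rw [← h]
        exact Dvd.dvd.mul_left (dvd_pow hu (by norm_num)) _
      exact (dvd_neg).mp this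
    rcases hp.dvd_or_dvd h1 with h2 | h2
    · exact absurd (hp.dvd_of_dvd_pow h2) hQ
    · exact h2
  · intro hw
    have h1 : p ∣ M ^ j * D * u ^ 2 := by
      rw [h]
      exact (dvd_neg).mpr (Dvd.dvd.mul_left hw _)
    rcases hp.dvd_or_dvd h1 with h2 | h2
    · rcases hp.dvd_or_dvd h2 with h3 | h3
      · exact absurd (hp.dvd_of_dvd_pow h3) hM
      · exact absurd h3 hD
    · exact hp.dvd_of_dvd_pow h2

theorem thm : G_UW := by
  intro T M η h P Q α β k h1 h2 hQ hD p hp hnd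
  have hpp : Prime (p : ℤ) := Nat.prime_iff_prime_int.mp hp
  have hM : ¬ (p : ℤ) ∣ M := fun hd => hnd (by
    have : (p : ℤ) ∣ 2 * M * Q * (P ^ 2 - 4 * Q) :=
      Dvd.dvd.mul_right (Dvd.dvd.mul_right (Dvd.dvd.mul_left hd _) _) _
    exact this)
  have hQ' : ¬ (p : ℤ) ∣ Q := fun hd => hnd (Dvd.dvd.mul_right (Dvd.dvd.mul_left hd _) _)
  have hD' : ¬ (p : ℤ) ∣ (P ^ 2 - 4 * Q) := fun hd => hnd (Dvd.dvd.mul_left hd _)
  have h2' : ¬ (p : ℤ) ∣ 2 := fun hd =>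
    hnd (Dvd.dvd.mul_right (Dvd.dvd.mul_right (Dvd.dvd.mul_right hd _) _) _)
  constructor
  · intro hα n
    have he : α ^ n = η ^ (k * n) * β ^ n := by
      rw [hα, mul_pow, pow_mul]
    exact dvd_iff p hpp M (P ^ 2 - 4 * Q) Q _ _ (k * n) n hM hD' hQ' (key_plus h P Q α β (k * n) n h1 h2 he)
  · intro hα n
    rcases Nat.even_or_odd n with hn | hn
    · have he : α ^ n = η ^ (k * n) * β ^ n := by
        rw [hα, hn.neg_pow, mul_pow, pow_mul]
      have hno : ¬ Odd n := Nat.not_odd_iff_even.mpr hn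
      have hk := dvd_iff p hpp M (P ^ 2 - 4 * Q) Q _ _ (k * n) n hM hD' hQ'
        (key_plus h P Q α β (k * n) n h1 h2 he)
      constructor
      · intro hu
        exact Or.inl ⟨hn, hk.mp hu⟩
      · rintro (⟨-, hw⟩ | ⟨ho, -⟩)
        · exact hk.mpr hw
        · exact absurd ho hno
    · have he : α ^ n = -(η ^ (k * n) * β ^ n) := by
        rw [hα, hn.neg_pow, mul_pow, pow_mul]
      have hne : ¬ Even n := Nat.not_even_iff_odd.mpr hn
      have hk := dvd_iff p hpp M (P ^ 2 - 4 * Q) Q _ _ (k * n) n hM hD' hQ'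
        (key_minus h P Q α β (k * n) n h1 h2 he)
      have hW2 : W T M (k * (2 * n)) = W T M (k * n) * (4 * M ^ (k * n) - W T M (k * n)) := by
        rw [← W_two h (k * n)]
        congr 1
        ring
      have h4M : ¬ (p : ℤ) ∣ 4 * M ^ (k * n) := by
        intro hd
        rcases hpp.dvd_or_dvd hd with h3 | h3
        · have h4 : (p : ℤ) ∣ 2 * 2 := by simpa using h3
          rcases hpp.dvd_or_dvd h4 with h5 | h5
          · exact h2' h5
          · exact h2' h5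
        · exact hM (hpp.dvd_of_dvd_pow h3)
      constructor
      · intro hu
        have hw := hk.mp hu
        refine Or.inr ⟨hn, ?_, ?_⟩
        · rw [hW2]
          exact Dvd.dvd.mul_left hw _
        · intro hw'
          apply h4M
          have := dvd_add hw hw'
          simpa using this
      · rintro (⟨he', -⟩ | ⟨-, hw, hw'⟩)
        · exact absurd he' hne
        · rw [hW2] at hw
          rcases hpp.dvd_or_dvd hw with h3 | h3
          · exact absurd h3 hw'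
          · exact hk.mpr h3

end PkUW

end Pool.Agent.Helper59.LUC
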